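import Mathlib
import Pool.Agent.H688.WE.Core

set_option autoImplicit false

namespace Pool.Agent.Results.MP_33c792_lc.ExpChains

/-- The maximal extension `M(L)` of a language `L` over the alphabet `Fin n`: the words on which
every pair of morphisms `g, h : Σ* → Σ*` that agrees on `L` also agrees. -/
def MaxExt (n : ℕ) (L : Set (List (Fin n))) : Set (List (Fin n)) :=
  {w | ∀ g h : Fin n → List (Fin n),
    (∀ v ∈ L, v.flatMap g = v.flatMap h) → w.flatMap g = w.flatMap h}

/-- The subset of `Fin m` whose members are the positions of the binary digits `1` of `a`. -/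
def bitSet (m a : ℕ) : Finset (Fin m) := Finset.univ.filter (fun i : Fin m => a.testBit i.val)

theorem bitSet_nonempty {m a : ℕ} (ha : a < 2 ^ m) (h0 : a ≠ 0) : (bitSet m a).Nonempty := by
  obtain ⟨i, hi⟩ := Nat.exists_testBit_of_ne_zero h0
  have him : i < m := by
    by_contra hc
    have h1 : a < 2 ^ i := lt_of_lt_of_le ha (Nat.pow_le_pow_right (by norm_num) (by omega))
    rw [Nat.testBit_lt_two_pow h1] at hi
    exact absurd hi (by simp)
  exact ⟨⟨i, him⟩, by simp [bitSet, hi]⟩

theorem le_of_bitSet_subset {m a b : ℕ} (ha : a < 2 ^ m) (h : bitSet m a ⊆ bitSet m b) :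
    a ≤ b := by
  have h1 : a &&& b = a := by
    apply Nat.eq_of_testBit_eq
    intro i
    rw [Nat.testBit_and]
    by_cases him : i < m
    · cases hi : a.testBit i with
      | false => simp
      | true =>
        have h2 : (⟨i, him⟩ : Fin m) ∈ bitSet m a := by simp [bitSet, hi]
        have h3 := h h2
        simp only [bitSet, Finset.mem_filter, Finset.mem_univ, true_and] at h3
        simp [h3]
    · have h2 : a < 2 ^ i := lt_of_lt_of_le ha (Nat.pow_le_pow_right (by norm_num) (by omega))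
      rw [Nat.testBit_lt_two_pow h2]
      simp
  calc a = a &&& b := h1.symm
    _ ≤ b := Nat.and_le_right

/-- **Exponentially long chains of maximal extensions.**  For every `n ≥ 4` there are words
`x 0, x 1, …` over the alphabet with `n` letters such that
`M({x 0}) ⊊ M({x 0, x 1}) ⊊ ⋯ ⊊ M({x 0, …, x (t-1)})` for `t = 2^⌊n/4⌋ - 1`. -/
theorem result (n : ℕ) (hn : 4 ≤ n) :
    ∃ x : ℕ → List (Fin n), ∀ i : ℕ, 1 ≤ i → i < 2 ^ (n / 4) - 1 →
      MaxExt n {w | ∃ j < i, x j = w} ⊂ MaxExt n {w | ∃ j < i + 1, x j = w} := by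
  obtain ⟨W, hW⟩ := Pool.Agent.H688.WE.core n (n / 4) (by omega) (by omega)
  have hpos : 0 < 2 ^ (n / 4) := by positivity
  refine ⟨fun j => W (bitSet (n / 4) (2 ^ (n / 4) - 1 - j)), fun i _ hi => ?_⟩
  refine (Set.ssubset_iff_of_subset ?_).2 ⟨W (bitSet (n / 4) (2 ^ (n / 4) - 1 - i)), ?_, ?_⟩
  · intro w hw g h hgh
    apply hw g h
    rintro v ⟨j, hj, rfl⟩
    exact hgh _ ⟨j, by omega, rfl⟩
  · intro g h hgh
    exact hgh _ ⟨i, by omega, rfl⟩
  · intro hmem
    obtain ⟨g, h, hgh⟩ := hW (bitSet (n / 4) (2 ^ (n / 4) - 1 - i))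
    have hne : ∀ j, j ≤ i → (bitSet (n / 4) (2 ^ (n / 4) - 1 - j)).Nonempty := fun j hj =>
      bitSet_nonempty (by omega) (by omega)
    refine (hgh _ (hne i le_rfl)).1 (hmem g h ?_) (Finset.Subset.refl _)
    rintro v ⟨j, hj, rfl⟩
    refine (hgh _ (hne j hj.le)).2 ?_
    intro hsub
    have := le_of_bitSet_subset (by omega) hsub
    omega

end Pool.Agent.Results.MP_33c792_lc.ExpChains
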